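import Mathlib

/-!
# The linear order `ω₁ ×ₗ ℚ`

It is homogeneous, its initial segments are countable, and it is uncountable.
-/

set_option autoImplicit false

open Set

open scoped Cardinal

namespace Pool.Agent.Helper43K9.PG

/-- The first uncountable ordinal, as a type. -/
abbrev W : Type := (ℵ₁ : Cardinal.{0}).ord.ToType

/-- The linear order `ω₁ ×ₗ ℚ`. -/
abbrev Om : Type := W ×ₗ ℚ

lemma countable_Iio_W (w : W) : (Iio w).Countable := by
  rw [← Cardinal.le_aleph0_iff_set_countable, ← Cardinal.lt_aleph_one_iff]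
  have := Cardinal.mk_Iio_lt w (by simp)
  simpa using this

lemma countable_Iic_W (w : W) : (Iic w).Countable := by
  rw [← Iio_insert]
  exact (countable_Iio_W w).insert w

instance : Uncountable W := by
  rw [← Cardinal.aleph0_lt_mk_iff]
  simp

instance : Uncountable Om := by
  have : Function.Injective (fun w : W => (toLex (w, (0 : ℚ)) : Om)) := by
    intro a b h
    have := congrArg (fun x : Om => (ofLex x).1) h
    simpa using this
  exact this.uncountable

instance : Nonempty W := inferInstance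
instance : Nonempty Om := inferInstance

lemma countable_Iic (c : Om) : (Iic c).Countable := by
  have h : (Iic c : Set Om) ⊆ (fun p : W × ℚ => (toLex p : Om)) '' ((Iic (ofLex c).1) ×ˢ univ) := by
    intro x hx
    refine ⟨ofLex x, ⟨?_, mem_univ _⟩, rfl⟩
    have := (Prod.Lex.le_iff (x := x) (y := c)).1 hx
    rcases this with h | h
    · exact h.le
    · exact h.1.le
  exact (((countable_Iic_W _).prod countable_univ).image _).mono h

instance : NoMinOrder Om where
  exists_lt a := ⟨toLex ((ofLex a).1, (ofLex a).2 - 1), by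
    rw [Prod.Lex.lt_iff]
    right
    simp⟩

/-- An initial segment `{x | x < c}` is order isomorphic to `ℚ`. -/
lemma exists_iso (c : Om) : Nonempty (Iio c ≃o ℚ) := by
  have h1 : Countable (Iio c) := ((countable_Iic c).mono Iio_subset_Iic_self).to_subtype
  have h2 : NoMinOrder (Iio c) := ⟨fun a => by
    obtain ⟨b, hb⟩ := exists_lt a.1
    exact ⟨⟨b, hb.trans a.2⟩, hb⟩⟩
  have h3 : NoMaxOrder (Iio c) := ⟨fun a => by
    obtain ⟨b, hb, hb'⟩ := exists_between (α := Om) (mem_Iio.1 a.2)
    exact ⟨⟨b, hb'⟩, hb⟩⟩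
  have h4 : DenselyOrdered (Iio c) := ⟨fun a b hab => by
    obtain ⟨z, hz, hz'⟩ := exists_between (α := Om) hab
    exact ⟨⟨z, hz'.trans b.2⟩, hz, hz'⟩⟩
  have h5 : Nonempty (Iio c) := by
    obtain ⟨b, hb⟩ := exists_lt c
    exact ⟨⟨b, hb⟩⟩
  exact Order.iso_of_countable_dense _ _

/-- The shift by `q` below `c`. -/
noncomputable def sh (c : Om) (e : Iio c ≃o ℚ) (q : ℚ) (x : Om) : Om :=
  open Classical in if h : x < c then (e.symm (e ⟨x, h⟩ + q)).1 else x

lemma sh_lt {c : Om} {e : Iio c ≃o ℚ} {q : ℚ} {x : Om} (h : x < c) :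
    sh c e q x = (e.symm (e ⟨x, h⟩ + q)).1 := by
  unfold sh; rw [dif_pos h]

lemma sh_ge {c : Om} {e : Iio c ≃o ℚ} {q : ℚ} {x : Om} (h : ¬ x < c) : sh c e q x = x := by
  unfold sh; rw [dif_neg h]

lemma sh_lt' {c : Om} {e : Iio c ≃o ℚ} {q : ℚ} {x : Om} (h : x < c) : sh c e q x < c := by
  rw [sh_lt h]; exact (e.symm _).2

lemma sh_sh (c : Om) (e : Iio c ≃o ℚ) (q r : ℚ) (x : Om) (hqr : q + r = 0) :
    sh c e q (sh c e r x) = x := by
  by_cases h : x < c
  · rw [sh_lt (sh_lt' h)]
    have : (⟨sh c e r x, sh_lt' h⟩ : Iio c) = e.symm (e ⟨x, h⟩ + r) := by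
      apply Subtype.ext
      exact sh_lt h
    rw [this, OrderIso.apply_symm_apply, add_assoc, add_comm r q, hqr, add_zero,
      OrderIso.symm_apply_apply]
  · rw [sh_ge h, sh_ge h]

lemma sh_mono (c : Om) (e : Iio c ≃o ℚ) (q : ℚ) : Monotone (sh c e q) := by
  intro x y hxy
  by_cases hy : y < c
  · have hx : x < c := hxy.trans_lt hy
    rw [sh_lt hx, sh_lt hy]
    have : e ⟨x, hx⟩ + q ≤ e ⟨y, hy⟩ + q := by
      have : e ⟨x, hx⟩ ≤ e ⟨y, hy⟩ := e.monotone hxy
      linarith
    exact e.symm.monotone this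
  · rw [sh_ge hy]
    by_cases hx : x < c
    · exact (sh_lt' hx).le.trans (not_lt.1 hy)
    · rwa [sh_ge hx]

/-- The shift as an order automorphism. -/
noncomputable def shIso (c : Om) (e : Iio c ≃o ℚ) (q : ℚ) : Om ≃o Om where
  toFun := sh c e q
  invFun := sh c e (-q)
  left_inv x := sh_sh c e (-q) q x (by ring)
  right_inv x := sh_sh c e q (-q) x (by ring)
  map_rel_iff' {a b} := by
    constructor
    · intro h
      have := sh_mono c e (-q) h
      simp only [Equiv.coe_fn_mk] at this
      rwa [sh_sh c e (-q) q a (by ring), sh_sh c e (-q) q b (by ring)] at this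
    · intro h
      exact sh_mono c e q h

/-- The order is homogeneous. -/
lemma exists_move (a b : Om) : ∃ σ : Om ≃o Om, σ a = b := by
  obtain ⟨c, hc⟩ : ∃ c : Om, max a b < c := by
    obtain ⟨c, hc⟩ : ∃ c : Om, c ∉ Iic (max a b) := by
      by_contra hcon
      push Not at hcon
      have : (univ : Set Om).Countable := (countable_Iic (max a b)).mono fun x _ => hcon x
      exact not_countable (countable_univ_iff.1 this)
    exact ⟨c, not_le.1 hc⟩
  have ha : a < c := (le_max_left _ _).trans_lt hc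
  have hb : b < c := (le_max_right _ _).trans_lt hc
  obtain ⟨e⟩ := exists_iso c
  refine ⟨shIso c e (e ⟨b, hb⟩ - e ⟨a, ha⟩), ?_⟩
  show sh c e _ a = b
  rw [sh_lt ha, add_sub_cancel, OrderIso.symm_apply_apply]

/-- Countable sets are bounded. -/
lemma exists_gt_countable {S : Set Om} (hS : S.Countable) : ∃ b : Om, ∀ s ∈ S, s < b := by
  by_contra hcon
  push Not at hcon
  have : (univ : Set Om) ⊆ ⋃ s ∈ S, Iic s := by
    intro b _
    obtain ⟨s, hs, hb⟩ := hcon b
    exact mem_biUnion hs hb
  have h2 : (univ : Set Om).Countable := (hS.biUnion fun s _ => countable_Iic s).mono this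
  exact not_countable (countable_univ_iff.1 h2)

/-- There is a countable coinitial set. -/
lemma exists_coinitial : ∃ C : Set Om, C.Countable ∧ ∀ x : Om, ∃ c ∈ C, c ≤ x := by
  obtain ⟨c0⟩ : Nonempty Om := inferInstance
  refine ⟨Iic c0, countable_Iic c0, fun x => ?_⟩
  rcases le_total x c0 with h | h
  · exact ⟨x, h, le_rfl⟩
  · exact ⟨c0, mem_Iic.2 le_rfl, h⟩

end Pool.Agent.Helper43K9.PG
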